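import Pool.Agent.J6H13.RL.Fin
import Pool.Agent.J6H13.RL.Pts
import Pool.Agent.Helper868.DHJ

set_option autoImplicit false

/-! Combinatorial lines of prime gaps at all scales up to the record. -/

namespace Pool.Agent.J6H17.NP

open Finset Filter
open Pool.Agent.TH779.Ord (fn el el_mem el_lt el_surj)
open Pool.Agent.H256R2.SC (ff)
open Pool.Agent.J6H13.RL (StRL stRL place_of nth_block ev_growth fn_bound)
open Pool.Agent.Helper868.DHJ (DensityHJ LineFree pt density_hales_jewett)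

/-- The indices `n` such that for some `r ≤ R` the primes `p_n < ... < p_(n+r)` are in `(X, 4 X]` and `≡ a` modulo
`q`, there are no other primes at distance `≤ H` from them, and some of them are placed like the images under `β` of
the points of a combinatorial line. -/
def Cfg (k N R q a : ℕ) (δ X H : ℝ) (β : (Fin N → Fin k) → ℝ) : Set ℕ :=
  {n | ∃ r ≤ R, X < Nat.nth Nat.Prime n ∧ (Nat.nth Nat.Prime (n + r) : ℝ) ≤ 4 * X ∧
    (∀ i ≤ r, Nat.nth Nat.Prime (n + i) ≡ a [MOD q]) ∧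
    (∀ p : ℕ, p.Prime → (Nat.nth Nat.Prime n : ℝ) ≤ p + H → (p : ℝ) ≤ Nat.nth Nat.Prime (n + r) + H →
      Nat.nth Nat.Prime n ≤ p ∧ p ≤ Nat.nth Nat.Prime (n + r)) ∧
    ∃ u : Fin N → Option (Fin k), (∃ i, u i = none) ∧ ∃ m : Fin k → ℕ, Function.Injective m ∧
      (∀ j, m j ≤ r) ∧ ∀ j j', |((Nat.nth Nat.Prime (n + m j) : ℝ) - Nat.nth Nat.Prime (n + m j')) / H -
        (β (pt u j) - β (pt u j'))| ≤ δ}

theorem cfg_finite (k N R q a : ℕ) (δ X H : ℝ) (β : (Fin N → Fin k) → ℝ) :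
    (Cfg k N R q a δ X H β).Finite := by
  apply Set.Finite.subset (Set.finite_le_nat ⌊4 * X⌋₊)
  rintro n ⟨r, -, -, h2, -⟩
  have hinf : (Set.ofPred Nat.Prime).Infinite := Nat.infinite_setOfPred_prime
  have h1 : n ≤ Nat.nth Nat.Prime (n + r) :=
    (Nat.le_add_right n r).trans ((Nat.nth_strictMono hinf).id_le _)
  have h3 : (n : ℝ) ≤ 4 * X := le_trans (by exact_mod_cast h1) h2
  exact Nat.le_floor h3

theorem par {C₁ : ℝ} (hC₁ : 0 < C₁) : ∃ b₀ : ℕ, ∀ b, b₀ ≤ b → C₁ * (b + 3) ≤ 2 ^ b := by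
  have h1 := tendsto_pow_const_div_const_pow_of_one_lt 1 (r := 2) (by norm_num)
  have h2 : ∀ᶠ b : ℕ in atTop, (b : ℝ) ^ 1 / 2 ^ b < 1 / (2 * C₁) :=
    h1.eventually (gt_mem_nhds (by positivity))
  obtain ⟨b₀, hb₀⟩ := Filter.eventually_atTop.1 (h2.and (eventually_ge_atTop 3))
  refine ⟨b₀, fun b hb => ?_⟩
  obtain ⟨h3, h4⟩ := hb₀ b hb
  rw [pow_one, div_lt_div_iff₀ (by positivity) (by positivity)] at h3
  have h5 : (3 : ℝ) ≤ b := by exact_mod_cast h4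
  have h6 : C₁ * (b + 3) ≤ C₁ * (2 * b) := mul_le_mul_of_nonneg_left (by linarith) hC₁.le
  linarith

theorem dens_eq {X : Type} [Fintype X] [Nonempty X] (A : Set X) [DecidablePred (· ∈ A)] :
    Pool.Agent.Helper868.DHJ.dens A = ((univ.filter (· ∈ A)).card : ℝ) / Fintype.card X := by
  unfold Pool.Agent.Helper868.DHJ.dens
  rw [Pool.Agent.Helper868.DHJ.av_eq_sum]
  congr 1
  rw [Finset.card_filter, Nat.cast_sum]
  refine Finset.sum_congr rfl fun x _ => ?_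
  by_cases hx : x ∈ A
  · rw [if_pos hx, Pool.Agent.Helper868.DHJ.ind_mem hx]; simp
  · rw [if_neg hx, Pool.Agent.Helper868.DHJ.ind_not_mem hx]; simp

theorem lines_of (h : StRL) (κ : ℕ) (hκ : 1 ≤ κ) : ∃ N R : ℕ, ∃ c : ℝ, 0 < c ∧ ∀ δ : ℝ, 0 < δ →
    ∀ q a : ℕ, Squarefree q → a.Coprime q →
    ∃ X₀ : ℝ, ∀ X : ℝ, X₀ ≤ X → ∀ H : ℝ, Real.log X ≤ H → H ≤ c * ff X →
    ∀ β : (Fin N → Fin (2 ^ κ)) → ℝ, (∀ w, 0 ≤ β w ∧ β w ≤ 1) →
      X ^ (7 / 8 : ℝ) ≤ ((Cfg (2 ^ κ) N R q a δ X H β).ncard : ℝ) := by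
  classical
  obtain ⟨C₁, c₀, hC₁, hc₀, hmain⟩ := place_of h
  obtain ⟨b₀, hb₀⟩ := par hC₁
  obtain ⟨N₀, hN₀⟩ := density_hales_jewett (Fin (2 ^ κ)) (c₀ / (2 * C₁)) (by positivity)
  obtain ⟨N, hN⟩ : ∃ N : ℕ, N = max N₀ (max b₀ 1) := ⟨_, rfl⟩
  have hNN₀ : N₀ ≤ N := by rw [hN]; exact le_max_left _ _
  have hNb₀ : b₀ ≤ N := by rw [hN]; exact (le_max_left _ _).trans (le_max_right _ _)
  have hN1 : 1 ≤ N := by rw [hN]; exact (le_max_right _ _).trans (le_max_right _ _)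
  obtain ⟨b, hb⟩ : ∃ b : ℕ, b = κ * N := ⟨_, rfl⟩
  have hbb₀ : b₀ ≤ b := by rw [hb]; exact hNb₀.trans (Nat.le_mul_of_pos_left N hκ)
  have hCb := hb₀ b hbb₀
  obtain ⟨B, hB⟩ : ∃ B : ℕ, B = ⌊(2 : ℝ) ^ b / C₁⌋₊ := ⟨_, rfl⟩
  have hB1 : (B : ℝ) ≤ 2 ^ b / C₁ := by rw [hB]; exact Nat.floor_le (by positivity)
  have hB2 : (2 : ℝ) ^ b / C₁ < B + 1 := by rw [hB]; exact Nat.lt_floor_add_one _
  have hB3 : (b : ℝ) + 3 ≤ 2 ^ b / C₁ := by
    rw [le_div_iff₀ hC₁]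
    linarith
  have hbB : b ≤ B := by
    have : (b : ℝ) ≤ B := by linarith
    exact_mod_cast this
  have hB0 : 1 ≤ B := by
    have h1 : (0 : ℝ) ≤ b := Nat.cast_nonneg b
    have : (1 : ℝ) ≤ B := by linarith
    exact_mod_cast this
  have hCB : C₁ * 1 * B ≤ 2 ^ b := by
    rw [mul_one]
    rw [le_div_iff₀ hC₁] at hB1
    linarith
  have hcB : c₀ / (2 * C₁) * 2 ^ b ≤ c₀ * B := by
    have h1 : (0 : ℝ) ≤ b := Nat.cast_nonneg b
    have h2 : c₀ / (2 * C₁) * 2 ^ b = c₀ * (2 ^ b / C₁ / 2) := by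
      field_simp
    rw [h2]
    apply mul_le_mul_of_nonneg_left _ hc₀.le
    linarith
  obtain ⟨c₁, hc₁, hpl⟩ := hmain B b 1 hB0 hbB le_rfl hCB
  refine ⟨N, 2 ^ B, c₁ / 4, by positivity, ?_⟩
  intro δ hδ q a hqsf haq
  obtain ⟨K, hK⟩ : ∃ K, K = 2 ^ (B - b) := ⟨_, rfl⟩
  have hK1 : 1 ≤ K := by rw [hK]; exact Nat.one_le_two_pow
  have hMK : 2 ^ b * K = 2 ^ B := by rw [hK, ← pow_add, Nat.add_sub_cancel' hbB]
  obtain ⟨M, hM⟩ : ∃ M : ℕ, M = ⌈8 / δ⌉₊ + 1 := ⟨_, rfl⟩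
  have hM1 : 1 ≤ M := by rw [hM]; exact Nat.le_add_left _ _
  have hMR : (1 : ℝ) ≤ M := by exact_mod_cast hM1
  have hM0 : (0 : ℝ) < M := by linarith
  have hMδ : 8 ≤ δ * M := by
    have h1 : 8 / δ ≤ M := by
      rw [hM]
      push_cast
      linarith [Nat.le_ceil (8 / δ)]
    rw [div_le_iff₀ hδ] at h1
    linarith
  obtain ⟨ε, hε⟩ : ∃ ε : ℝ, ε = min δ 1 / (64 * 2 ^ B) := ⟨_, rfl⟩
  have hmin0 : 0 < min δ 1 := lt_min hδ one_pos
  have hε0 : 0 < ε := by rw [hε]; positivity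
  have hεB : 64 * (ε * 2 ^ B) = min δ 1 := by
    rw [hε]
    field_simp
  have h2B : (1 : ℝ) ≤ 2 ^ B := one_le_pow₀ (by norm_num)
  have hεle : ε ≤ ε * 2 ^ B := by
    have := mul_le_mul_of_nonneg_left h2B hε0.le
    linarith
  have hεδ : 64 * (ε * 2 ^ B) ≤ δ := by rw [hεB]; exact min_le_left _ _
  have hε1 : 64 * (ε * 2 ^ B) ≤ 1 := by rw [hεB]; exact min_le_right _ _
  -- positions
  set y : (Fin (2 ^ b) → Fin (M + 1)) → ℕ → ℝ := fun u x =>
    1 / 4 + (if h : x / K < 2 ^ b then ((u ⟨x / K, h⟩ : ℕ) : ℝ) else 0) / (4 * M) + 2 * ε * x with hy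
  have hdiv : ∀ x < 2 ^ B, x / K < 2 ^ b := by
    intro x hx
    rw [Nat.div_lt_iff_lt_mul hK1, hMK]
    exact hx
  have hy' : ∀ u x (hx : x < 2 ^ B), y u x = 1 / 4 + ((u ⟨x / K, hdiv x hx⟩ : ℕ) : ℝ) / (4 * M) + 2 * ε * x := by
    intro u x hx
    simp only [hy, hdiv x hx, dite_true]
  have hex : ∀ u : Fin (2 ^ b) → Fin (M + 1), ∃ X0 : ℝ, Monotone u → ∀ X : ℝ, X0 ≤ X → ∀ F : ℝ,
    Real.log X ≤ F → F ≤ c₁ * ff X →
    ∀ bad : Finset ℕ, (bad.card : ℝ) ≤ X ^ (9 / 10 : ℝ) →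
    ∃ n : ℕ, X < n ∧ (n : ℝ) ≤ 3 * X ∧ n ∉ bad ∧ ∃ (t : ℕ → ℕ) (J : Finset ℕ),
      (∀ x < 2 ^ B, y u x * F < t x ∧ (t x : ℝ) ≤ (y u x + ε) * F) ∧
      (∀ x ∈ J, x < 2 ^ B ∧ (n + t x).Prime ∧ n + t x ≡ a [MOD q]) ∧
      (∀ s : ℕ, (s : ℝ) ≤ F → (n + s).Prime → ∃ x ∈ J, s = t x) ∧
      c₀ * B ≤ ∑ g ∈ range (2 ^ b), fn 1 (J.filter (fun x => x / 2 ^ (B - b) = g)).card := by
    intro u
    by_cases hu : Monotone u
    · obtain ⟨X0, hX0⟩ := hpl (y u) ε hε0 (by linarith) (by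
        intro x hx
        rw [hy' u x hx]
        have h1 : ((u ⟨x / K, hdiv x hx⟩ : ℕ) : ℝ) ≤ M := by
          exact_mod_cast Nat.lt_succ_iff.1 (u ⟨x / K, hdiv x hx⟩).2
        have h2 : ((u ⟨x / K, hdiv x hx⟩ : ℕ) : ℝ) / (4 * M) ≤ 1 / 4 := by
          rw [div_le_div_iff₀ (by positivity) (by norm_num)]
          linarith
        have h3 : 0 ≤ ((u ⟨x / K, hdiv x hx⟩ : ℕ) : ℝ) / (4 * M) := by positivity
        have h4 : (x : ℝ) ≤ 2 ^ B := by exact_mod_cast hx.le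
        have h5 : 0 ≤ ε * x := by positivity
        have h6 : ε * x ≤ ε * 2 ^ B := mul_le_mul_of_nonneg_left h4 hε0.le
        constructor
        · linarith
        · linarith) (by
        intro x hx x' hx' hxx
        rw [hy' u x hx, hy' u x' hx']
        have h1 : x / K ≤ x' / K := Nat.div_le_div_right hxx.le
        have h2 : ((u ⟨x / K, hdiv x hx⟩ : ℕ) : ℝ) ≤ ((u ⟨x' / K, hdiv x' hx'⟩ : ℕ) : ℝ) := by
          exact_mod_cast hu (show (⟨x / K, hdiv x hx⟩ : Fin (2 ^ b)) ≤ ⟨x' / K, hdiv x' hx'⟩ from h1)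
        have h3 : ((u ⟨x / K, hdiv x hx⟩ : ℕ) : ℝ) / (4 * M) ≤ ((u ⟨x' / K, hdiv x' hx'⟩ : ℕ) : ℝ) / (4 * M) :=
          div_le_div_of_nonneg_right h2 (by positivity)
        have h4 : (x : ℝ) + 1 ≤ x' := by exact_mod_cast hxx
        have h5 : ε * ((x : ℝ) + 1) ≤ ε * x' := mul_le_mul_of_nonneg_left h4 hε0.le
        nlinarith) q a hqsf haq
      exact ⟨X0, fun _ => hX0⟩
    · exact ⟨0, fun h => absurd h hu⟩
  choose X1 hX1 using hex
  rw [← Filter.eventually_atTop]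
  have hall : ∀ᶠ X : ℝ in atTop, ∀ u, X1 u ≤ X := Filter.eventually_all.2 fun u => eventually_ge_atTop _
  filter_upwards [hall, ev_growth 1 c₁, eventually_gt_atTop (0 : ℝ)] with X hXu hgr hX0
  intro H hH1 hH2 β hβ
  obtain ⟨F, hF⟩ : ∃ F, F = 4 * H := ⟨_, rfl⟩
  have hHpos : 0 < H := hgr.2.2.trans_le hH1
  have hFpos : 0 < F := by rw [hF]; linarith
  have hF1 : Real.log X ≤ F := by rw [hF]; linarith
  have hF2 : F ≤ c₁ * ff X := by rw [hF]; linarith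
  have hFX : F ≤ X := hF2.trans hgr.1
  set W := Cfg (2 ^ κ) N (2 ^ B) q a δ X H β with hW
  have hWfin : W.Finite := cfg_finite (2 ^ κ) N (2 ^ B) q a δ X H β
  by_contra hcon
  push Not at hcon
  set bad : Finset ℕ := hWfin.toFinset.biUnion (fun m =>
      Finset.Icc (Nat.nth Nat.Prime m - ⌊F⌋₊) (Nat.nth Nat.Prime m)) with hbad
  have hbadcard : (bad.card : ℝ) ≤ X ^ (9 / 10 : ℝ) := by
    have h2 : bad.card ≤ ∑ m ∈ hWfin.toFinset,
            (Finset.Icc (Nat.nth Nat.Prime m - ⌊F⌋₊) (Nat.nth Nat.Prime m)).card := card_biUnion_le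
    have h3 : (bad.card : ℝ) ≤ ∑ m ∈ hWfin.toFinset,
            ((Finset.Icc (Nat.nth Nat.Prime m - ⌊F⌋₊) (Nat.nth Nat.Prime m)).card : ℝ) := by
      exact_mod_cast h2
    have h4 : ∀ m ∈ hWfin.toFinset,
          ((Finset.Icc (Nat.nth Nat.Prime m - ⌊F⌋₊) (Nat.nth Nat.Prime m)).card : ℝ) ≤ F + 1 := by
      intro m _
      rw [Nat.card_Icc]
      have h5 : Nat.nth Nat.Prime m + 1 - (Nat.nth Nat.Prime m - ⌊F⌋₊) ≤ ⌊F⌋₊ + 1 := by omega
      have h6 : ((⌊F⌋₊ : ℕ) : ℝ) ≤ F := Nat.floor_le hFpos.le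
      have h7 : ((Nat.nth Nat.Prime m + 1 - (Nat.nth Nat.Prime m - ⌊F⌋₊) : ℕ) : ℝ) ≤
        ((⌊F⌋₊ + 1 : ℕ) : ℝ) := by exact_mod_cast h5
      push_cast at h7 ⊢
      linarith
    refine (h3.trans (sum_le_sum h4)).trans ?_
    rw [sum_const, nsmul_eq_mul]
    rw [Set.ncard_eq_toFinset_card _ hWfin] at hcon
    have h8 : 0 ≤ X ^ (7 / 8 : ℝ) := (Real.rpow_pos_of_pos hX0 _).le
    calc (hWfin.toFinset.card : ℝ) * (F + 1)
        ≤ X ^ (7 / 8 : ℝ) * (c₁ * ff X + 1) := mul_le_mul hcon.le (by linarith) (by linarith) h8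
      _ = 1 * X ^ (7 / 8 : ℝ) * (c₁ * ff X + 1) := by ring
      _ ≤ _ := hgr.2.1
  -- rounded points
  have hubd : ∀ w, ⌊β w * M⌋₊ < M + 1 := by
    intro w
    rw [Nat.lt_succ_iff]
    have h1 := (hβ w).2
    have h2 : β w * M ≤ M := by nlinarith
    exact_mod_cast (Nat.floor_le_of_le (by exact_mod_cast h2) : ⌊β w * M⌋₊ ≤ M)
  set v : (Fin N → Fin (2 ^ κ)) → Fin (M + 1) := fun w => ⟨⌊β w * M⌋₊, hubd w⟩ with hv
  have hcardW : Fintype.card (Fin N → Fin (2 ^ κ)) = 2 ^ b := by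
    rw [Fintype.card_fun, Fintype.card_fin, Fintype.card_fin, ← pow_mul, hb]
  set e₀ : (Fin N → Fin (2 ^ κ)) ≃ Fin (2 ^ b) := Fintype.equivFinOfCardEq hcardW with he₀
  set σ := Tuple.sort (v ∘ e₀.symm) with hσ
  set e : (Fin N → Fin (2 ^ κ)) ≃ Fin (2 ^ b) := e₀.trans σ.symm with he
  set u : Fin (2 ^ b) → Fin (M + 1) := fun g => v (e.symm g) with hu
  have humono : Monotone u := Tuple.monotone_sort (v ∘ e₀.symm)
  have hue : ∀ w, u (e w) = v w := by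
    intro w
    simp only [hu, Equiv.symm_apply_apply]
  have hunear : ∀ w, |((v w : ℕ) : ℝ) / M - β w| ≤ δ / 8 := by
    intro w
    have h0 := (hβ w).1
    have h1 : ((v w : ℕ) : ℝ) ≤ β w * M := Nat.floor_le (by positivity)
    have h2 : β w * M < (v w : ℕ) + 1 := Nat.lt_floor_add_one _
    have h3 : ((v w : ℕ) : ℝ) / M ≤ β w := by rw [div_le_iff₀ hM0]; exact h1
    have h4 : β w ≤ ((v w : ℕ) : ℝ) / M + δ / 8 := by
      have h5 : β w * M ≤ (((v w : ℕ) : ℝ) / M + δ / 8) * M := by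
        have : (((v w : ℕ) : ℝ) / M + δ / 8) * M = (v w : ℕ) + δ * M / 8 := by
          field_simp
        rw [this]
        linarith
      exact le_of_mul_le_mul_right h5 hM0
    rw [abs_le]
    constructor <;> linarith
  obtain ⟨n, hn1, hn2, hn3, t, J, ht, hJ, hJex, hJsum⟩ := hX1 u humono X (hXu u) F hF1 hF2 bad hbadcard
  rw [← hK] at hJsum
  -- the classes which contain exactly one prime
  set A : Set (Fin N → Fin (2 ^ κ)) := {w | (J.filter (fun x => x / K = e w)).card = 1} with hA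
  have hAcard : c₀ / (2 * C₁) ≤ Pool.Agent.Helper868.DHJ.dens A := by
    rw [dens_eq, hcardW, le_div_iff₀ (by positivity)]
    push_cast
    refine hcB.trans (hJsum.trans ?_)
    have h1 : ∀ g ∈ range (2 ^ b), fn 1 (J.filter (fun x => x / K = g)).card ≤
        ((if (J.filter (fun x => x / K = g)).card = 1 then 1 else 0 : ℕ) : ℝ) := by
      intro g _
      have h2 := fn_bound 1 le_rfl (J.filter (fun x => x / K = g)).card
      push_cast at h2 ⊢
      linarith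
    refine (sum_le_sum h1).trans ?_
    rw [← Nat.cast_sum, ← card_filter]
    have h3 : ((range (2 ^ b)).filter (fun g => (J.filter (fun x => x / K = g)).card = 1)).card ≤
        (univ.filter (· ∈ A)).card := by
      have h4 : (range (2 ^ b)).filter (fun g => (J.filter (fun x => x / K = g)).card = 1) ⊆
          (univ.filter (· ∈ A)).image (fun w => ((e w : Fin (2 ^ b)) : ℕ)) := by
        intro g hg
        rw [mem_filter, mem_range] at hg
        rw [mem_image]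
        refine ⟨e.symm ⟨g, hg.1⟩, ?_, ?_⟩
        · rw [mem_filter]
          refine ⟨mem_univ _, ?_⟩
          simp only [hA, Set.mem_ofPred_eq, Equiv.apply_symm_apply]
          exact hg.2
        · rw [Equiv.apply_symm_apply]
      exact (card_le_card h4).trans card_image_le
    exact_mod_cast h3
  obtain ⟨u', hu', hline⟩ : ∃ u' : Fin N → Option (Fin (2 ^ κ)), (∃ i, u' i = none) ∧
      ∀ j, pt u' j ∈ A := by
    by_contra hno
    push Not at hno
    have h1 : LineFree A := fun u' hu' => hno u' hu'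
    have h2 := hN₀ (Fin N) (by rw [Fintype.card_fin]; exact hNN₀) A h1
    linarith
  have hxex : ∀ j, ∃ x ∈ J, x / K = e (pt u' j) := by
    intro j
    have h1 : (J.filter (fun x => x / K = e (pt u' j))).card = 1 := hline j
    obtain ⟨x, hx⟩ := card_pos.1 (by rw [h1]; exact one_pos)
    rw [mem_filter] at hx
    exact ⟨x, hx.1, hx.2⟩
  choose x hxJ hxe using hxex
  have hlt : ∀ x < 2 ^ B, (t x : ℝ) ≤ 3 / 4 * F := by
    intro x hx
    have h1 := (ht x hx).2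
    have h2 : (y u x + ε) * F ≤ 3 / 4 * F := by
      apply mul_le_mul_of_nonneg_right _ hFpos.le
      rw [hy' u x hx]
      have h1 : ((u ⟨x / K, hdiv x hx⟩ : ℕ) : ℝ) ≤ M := by
        exact_mod_cast Nat.lt_succ_iff.1 (u ⟨x / K, hdiv x hx⟩).2
      have h2 : ((u ⟨x / K, hdiv x hx⟩ : ℕ) : ℝ) / (4 * M) ≤ 1 / 4 := by
        rw [div_le_div_iff₀ (by positivity) (by norm_num)]
        linarith
      have h4 : (x : ℝ) ≤ 2 ^ B := by exact_mod_cast hx.le
      have h6 : ε * x ≤ ε * 2 ^ B := mul_le_mul_of_nonneg_left h4 hε0.le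
      linarith
    linarith
  have hgt : ∀ x < 2 ^ B, 1 / 4 * F < t x := by
    intro x hx
    refine lt_of_le_of_lt ?_ (ht x hx).1
    apply mul_le_mul_of_nonneg_right _ hFpos.le
    rw [hy' u x hx]
    have h3 : 0 ≤ ((u ⟨x / K, hdiv x hx⟩ : ℕ) : ℝ) / (4 * M) := by positivity
    have h5 : 0 ≤ 2 * ε * x := by positivity
    linarith
  have htlt : ∀ x < 2 ^ B, ∀ x' < 2 ^ B, x < x' → t x < t x' := by
    intro x hx x' hx' hxx
    have h1 := (ht x hx).2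
    have h2 := (ht x' hx').1
    have h3 : (y u x + ε) * F ≤ y u x' * F := by
      apply mul_le_mul_of_nonneg_right _ hFpos.le
      rw [hy' u x hx, hy' u x' hx']
      have h1 : x / K ≤ x' / K := Nat.div_le_div_right hxx.le
      have h2 : ((u ⟨x / K, hdiv x hx⟩ : ℕ) : ℝ) ≤ ((u ⟨x' / K, hdiv x' hx'⟩ : ℕ) : ℝ) := by
        exact_mod_cast humono (show (⟨x / K, hdiv x hx⟩ : Fin (2 ^ b)) ≤ ⟨x' / K, hdiv x' hx'⟩ from h1)
      have h3 : ((u ⟨x / K, hdiv x hx⟩ : ℕ) : ℝ) / (4 * M) ≤ ((u ⟨x' / K, hdiv x' hx'⟩ : ℕ) : ℝ) / (4 * M) :=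
        div_le_div_of_nonneg_right h2 (by positivity)
      have h4 : (x : ℝ) + 1 ≤ x' := by exact_mod_cast hxx
      have h5 : ε * ((x : ℝ) + 1) ≤ ε * x' := mul_le_mul_of_nonneg_left h4 hε0.le
      nlinarith
    have h4 : (t x : ℝ) < t x' := by linarith
    exact_mod_cast h4
  have htle : ∀ x < 2 ^ B, ∀ x' < 2 ^ B, x ≤ x' → t x ≤ t x' := by
    intro x hx x' hx' hxx
    rcases Nat.lt_or_eq_of_le hxx with h | h
    · exact (htlt x hx x' hx' h).le
    · rw [h]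
  have hJB : ∀ e < J.card, el J e < 2 ^ B := fun e he => (hJ _ (el_mem J he)).1
  have hJpos : 0 < J.card := card_pos.2 ⟨x ⟨0, by positivity⟩, hxJ _⟩
  have hJle : J.card ≤ 2 ^ B := by
    have h1 : J ⊆ range (2 ^ B) := fun x hx => mem_range.2 (hJ x hx).1
    simpa using card_le_card h1
  obtain ⟨r, hr⟩ : ∃ r : ℕ, r = J.card - 1 := ⟨_, rfl⟩
  have hrJ : ∀ i ≤ r, i < J.card := fun i hi => by omega
  have helle : ∀ i j, i ≤ j → j ≤ r → el J i ≤ el J j := by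
    intro i j hij hj
    rcases Nat.lt_or_eq_of_le hij with h | h
    · exact (el_lt J h (hrJ j hj)).le
    · rw [h]
  have hrlt : ∀ i j, i < j → j ≤ r → t (el J i) < t (el J j) := by
    intro i j hij hj
    exact htlt _ (hJB _ (by omega)) _ (hJB _ (hrJ j hj)) (el_lt J hij (hrJ j hj))
  have hall2 : ∀ w ∈ J, t (el J 0) ≤ t w ∧ t w ≤ t (el J r) := by
    intro w hw
    obtain ⟨i, hi, hwi⟩ := el_surj J hw
    rw [← hwi]
    exact ⟨htle _ (hJB _ (by omega)) _ (hJB _ hi) (helle 0 i (Nat.zero_le _) (by omega)),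
      htle _ (hJB _ hi) _ (hJB _ (by omega)) (helle i r (by omega) le_rfl)⟩
  obtain ⟨m, hm⟩ := nth_block n r (fun i => t (el J i)) hrlt
    (fun i hi => (hJ _ (el_mem J (hrJ i hi))).2.1)
    (by
      intro z hz1 hz2 hz3
      have hzF : (z : ℝ) ≤ F := by
        have h1 : (z : ℝ) ≤ t (el J r) := by exact_mod_cast hz2
        have h2 := hlt _ (hJB r (hrJ r le_rfl))
        linarith
      obtain ⟨w, hw, hzw⟩ := hJex z hzF hz3
      obtain ⟨i, hi, hwi⟩ := el_surj J hw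
      exact ⟨i, by omega, by rw [hzw, hwi]⟩)
  have hmi : ∀ i ≤ r, Nat.nth Nat.Prime (m + i) = n + t (el J i) := hm
  have hm0 : Nat.nth Nat.Prime m = n + t (el J 0) := by
    have := hmi 0 (Nat.zero_le _)
    rwa [add_zero] at this
  apply hn3
  -- the positions of the primes
  have hpos : ∀ j, |(t (x j) : ℝ) / H - (1 + β (pt u' j))| ≤ 5 / 16 * δ := by
    intro j
    have hxB : x j < 2 ^ B := (hJ _ (hxJ j)).1
    have h4 := ht _ hxB
    rw [hy' u _ hxB] at h4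
    have hcl : (⟨x j / K, hdiv _ hxB⟩ : Fin (2 ^ b)) = e (pt u' j) := Fin.ext (hxe j)
    rw [hcl, hue] at h4
    have h6 := hunear (pt u' j)
    set V := ((v (pt u' j) : ℕ) : ℝ) with hV
    have e1 : (1 / 4 + V / (4 * M) + 2 * ε * (x j)) * F = (1 + V / M + 8 * (ε * (x j))) * H := by
      rw [hF]
      field_simp
      ring
    have e2 : (1 / 4 + V / (4 * M) + 2 * ε * (x j) + ε) * F =
        (1 + V / M + 8 * (ε * (x j)) + 4 * ε) * H := by
      rw [hF]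
      field_simp
      ring
    rw [e1, e2] at h4
    have hx1 : ((x j : ℕ) : ℝ) ≤ 2 ^ B := by exact_mod_cast hxB.le
    have h8 : ε * ((x j : ℕ) : ℝ) ≤ ε * 2 ^ B := mul_le_mul_of_nonneg_left hx1 hε0.le
    have h10 : 0 ≤ ε * ((x j : ℕ) : ℝ) := by positivity
    have h12 : (t (x j) : ℝ) / H ≤ 1 + V / M + 12 * (ε * 2 ^ B) := by
      rw [div_le_iff₀ hHpos]
      refine h4.2.trans ?_
      apply mul_le_mul_of_nonneg_right _ hHpos.le
      linarith
    have h13 : 1 + V / M ≤ (t (x j) : ℝ) / H := by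
      rw [le_div_iff₀ hHpos]
      refine le_trans ?_ h4.1.le
      apply mul_le_mul_of_nonneg_right _ hHpos.le
      linarith
    rw [abs_le] at h6 ⊢
    constructor <;> linarith [h6.1, h6.2]
  have hmx : ∀ j, ∃ i ≤ r, x j = el J i := by
    intro j
    obtain ⟨i, hi, h⟩ := el_surj J (hxJ j)
    exact ⟨i, by omega, h.symm⟩
  choose mm hmm1 hmm2 using hmx
  have hmem : m ∈ W := by
    refine ⟨r, by omega, ?_, ?_, ?_, ?_, u', hu', mm, ?_, hmm1, ?_⟩
    · rw [hm0]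
      push_cast
      have : (0 : ℝ) ≤ t (el J 0) := Nat.cast_nonneg _
      linarith
    · rw [hmi r le_rfl]
      push_cast
      have h1 := hlt _ (hJB r (hrJ r le_rfl))
      linarith
    · intro i hi
      rw [hmi i hi]
      exact (hJ _ (el_mem J (hrJ i hi))).2.2
    · intro p hp h1 h2
      rw [hm0] at h1 ⊢
      rw [hmi r le_rfl] at h2 ⊢
      push_cast at h1 h2
      have h3 := hgt _ (hJB 0 hJpos)
      have h4 := hlt _ (hJB r (hrJ r le_rfl))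
      have h5 : (n : ℝ) ≤ p := by linarith
      have h6 : n ≤ p := by exact_mod_cast h5
      obtain ⟨s, rfl⟩ : ∃ s, p = n + s := ⟨p - n, by omega⟩
      push_cast at h2
      obtain ⟨w, hw, hsw⟩ := hJex s (by linarith) hp
      have h7 := hall2 w hw
      rw [hsw]
      omega
    · intro j j' hjj
      have h1 : x j = x j' := by rw [hmm2 j, hmm2 j', hjj]
      have h2 : pt u' j = pt u' j' := by
        apply e.injective
        apply Fin.ext
        rw [← hxe j, ← hxe j', h1]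
      obtain ⟨i, hi⟩ := hu'
      have h3 := congrFun h2 i
      simp only [pt, hi, Option.getD_none] at h3
      exact h3
    · intro j j'
      rw [hmi _ (hmm1 j), hmi _ (hmm1 j'), ← hmm2 j, ← hmm2 j']
      push_cast
      have h1 := hpos j
      have h2 := hpos j'
      have e1 : ((n : ℝ) + t (x j) - (n + t (x j'))) / H = (t (x j) : ℝ) / H - (t (x j') : ℝ) / H := by
        rw [← sub_div]
        congr 1
        ring
      rw [e1]
      rw [abs_le] at h1 h2 ⊢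
      constructor <;> linarith [h1.1, h1.2, h2.1, h2.2]
  rw [hbad, mem_biUnion]
  refine ⟨m, (Set.Finite.mem_toFinset _).2 hmem, ?_⟩
  rw [mem_Icc, hm0]
  have h2 : t (el J 0) ≤ ⌊F⌋₊ := by
    apply Nat.le_floor
    have := hlt _ (hJB 0 hJpos)
    linarith
  constructor <;> omega

end Pool.Agent.J6H17.NP
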