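import Pool.Agent.J6H17.NP.Lines

set_option autoImplicit false

/-! Approximate arithmetic progressions among a bounded number of consecutive primes. -/

namespace Pool.Agent.J6H17.NP

open Finset Filter
open Pool.Agent.H256R2.SC (ff)
open Pool.Agent.J6H13.RL (stRL)
open Pool.Agent.Helper868.DHJ (pt)

theorem lines_all (k : ℕ) (hk : 1 ≤ k) : ∃ N R : ℕ, ∃ c : ℝ, 0 < c ∧ ∀ δ : ℝ, 0 < δ →
    ∀ q a : ℕ, Squarefree q → a.Coprime q →
    ∃ X₀ : ℝ, ∀ X : ℝ, X₀ ≤ X → ∀ H : ℝ, Real.log X ≤ H → H ≤ c * ff X →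
    ∀ β : (Fin N → Fin k) → ℝ, (∀ w, 0 ≤ β w ∧ β w ≤ 1) →
      X ^ (7 / 8 : ℝ) ≤ ((Cfg k N R q a δ X H β).ncard : ℝ) := by
  obtain ⟨N, R, c, hc, hmain⟩ := lines_of stRL k hk
  refine ⟨N, R, c, hc, fun δ hδ q a hq ha => ?_⟩
  obtain ⟨X₀, hX₀⟩ := hmain δ hδ q a hq ha
  refine ⟨X₀, fun X hX H hH1 hH2 β hβ => ?_⟩
  have hk2 : k ≤ 2 ^ k := Nat.lt_two_pow_self.le
  set ρ : Fin (2 ^ k) → Fin k := fun i => if h : (i : ℕ) < k then ⟨i, h⟩ else ⟨0, hk⟩ with hρ
  set ι : Fin k → Fin (2 ^ k) := fun j => ⟨j, lt_of_lt_of_le j.2 hk2⟩ with hι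
  have hρι : ∀ j, ρ (ι j) = j := by
    intro j
    simp only [hρ, hι, j.2, dite_true]
  have hιinj : Function.Injective ι := by
    intro j j' h
    have := congrArg Fin.val h
    exact Fin.ext this
  refine (hX₀ X hX H hH1 hH2 (fun w => β (fun i => ρ (w i))) (fun w => hβ _)).trans ?_
  have hsub : Cfg (2 ^ k) N R q a δ X H (fun w => β (fun i => ρ (w i))) ⊆ Cfg k N R q a δ X H β := by
    rintro n ⟨r, h1, h2, h3, h4, h5, u, ⟨i, hi⟩, m, hm1, hm2, hm3⟩
    refine ⟨r, h1, h2, h3, h4, h5, fun i => (u i).map ρ, ⟨i, by simp [hi]⟩, fun j => m (ι j),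
      hm1.comp hιinj, fun j => hm2 _, fun j j' => ?_⟩
    have h6 : ∀ j, pt (fun i => (u i).map ρ) j = fun i => ρ (pt u (ι j) i) := by
      intro j
      funext i
      cases hui : u i <;> simp [pt, hui, hρι]
    rw [h6, h6]
    exact hm3 (ι j) (ι j')
  exact_mod_cast Set.ncard_le_ncard hsub (cfg_finite k N R q a δ X H β)

/-- The indices `n` such that for some `r ≤ R` the primes `p_n < ... < p_(n+r)` are in `(X, 4 X]` and `≡ a` modulo
`q`, there are no other primes at distance `≤ H` from them, and `k` of them form an arithmetic progression, up to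
`ε H`, whose difference is `s H`, `1 ≤ s ≤ N`. -/
def Ap (k N R q a : ℕ) (ε X H : ℝ) : Set ℕ :=
  {n | ∃ r ≤ R, X < Nat.nth Nat.Prime n ∧ (Nat.nth Nat.Prime (n + r) : ℝ) ≤ 4 * X ∧
    (∀ i ≤ r, Nat.nth Nat.Prime (n + i) ≡ a [MOD q]) ∧
    (∀ p : ℕ, p.Prime → (Nat.nth Nat.Prime n : ℝ) ≤ p + H → (p : ℝ) ≤ Nat.nth Nat.Prime (n + r) + H →
      Nat.nth Nat.Prime n ≤ p ∧ p ≤ Nat.nth Nat.Prime (n + r)) ∧
    ∃ s : ℕ, 1 ≤ s ∧ s ≤ N ∧ ∃ m : Fin k → ℕ, StrictMono m ∧ (∀ j, m j ≤ r) ∧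
      ∀ i j : Fin k, |(Nat.nth Nat.Prime (n + m j) : ℝ) - Nat.nth Nat.Prime (n + m i) -
        s * H * ((j : ℝ) - (i : ℝ))| ≤ ε * H}

theorem ap_finite (k N R q a : ℕ) (ε X H : ℝ) : (Ap k N R q a ε X H).Finite := by
  apply Set.Finite.subset (Set.finite_le_nat ⌊4 * X⌋₊)
  rintro n ⟨r, -, -, h2, -⟩
  have hinf : (Set.ofPred Nat.Prime).Infinite := Nat.infinite_setOfPred_prime
  have h1 : n ≤ Nat.nth Nat.Prime (n + r) :=
    (Nat.le_add_right n r).trans ((Nat.nth_strictMono hinf).id_le _)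
  have h3 : (n : ℝ) ≤ 4 * X := le_trans (by exact_mod_cast h1) h2
  exact Nat.le_floor h3

theorem ap_main (k : ℕ) (hk : 1 ≤ k) : ∃ N R : ℕ, ∃ c : ℝ, 0 < c ∧ ∀ ε : ℝ, 0 < ε →
    ∀ q a : ℕ, Squarefree q → a.Coprime q →
    ∃ X₀ : ℝ, ∀ X : ℝ, X₀ ≤ X → ∀ H : ℝ, Real.log X ≤ H → H ≤ c * ff X →
      X ^ (7 / 8 : ℝ) ≤ ((Ap k N R q a ε X H).ncard : ℝ) := by
  obtain ⟨N, R, c, hc, hmain⟩ := lines_all k hk
  -- the dimension may be taken positive
  rcases Nat.eq_zero_or_pos N with hN0 | hN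
  · subst hN0
    refine ⟨1, R, c, hc, fun ε hε q a hq ha => ?_⟩
    obtain ⟨X₀, hX₀⟩ := hmain ε hε q a hq ha
    refine ⟨max X₀ 1, fun X hX H hH1 hH2 => ?_⟩
    have h1 := hX₀ X ((le_max_left _ _).trans hX) H hH1 hH2 (fun _ => 0) (fun _ => ⟨le_rfl, zero_le_one⟩)
    have h2 : Cfg k 0 R q a ε X H (fun _ => 0) = ∅ := by
      rw [Set.eq_empty_iff_forall_notMem]
      rintro n ⟨r, -, -, -, -, -, u, ⟨i, -⟩, -⟩
      exact i.elim0
    rw [h2, Set.ncard_empty, Nat.cast_zero] at h1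
    have h3 : 0 < X ^ (7 / 8 : ℝ) := Real.rpow_pos_of_pos (by linarith [(le_max_right X₀ 1).trans hX]) _
    linarith
  have hkN : (0 : ℝ) < k * N := by
    have h1 : (0 : ℝ) < k := by exact_mod_cast hk
    have h2 : (0 : ℝ) < N := by exact_mod_cast hN
    positivity
  have hkN1 : (1 : ℝ) ≤ k * N := by
    have : 1 ≤ k * N := Nat.mul_pos hk hN
    exact_mod_cast this
  refine ⟨N, R, c / (k * N), by positivity, fun ε hε q a hq ha => ?_⟩
  obtain ⟨ε', hε'⟩ : ∃ ε' : ℝ, ε' = min ε (1 / 2) := ⟨_, rfl⟩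
  have hε'0 : 0 < ε' := by rw [hε']; exact lt_min hε (by norm_num)
  have hε'1 : ε' ≤ ε := by rw [hε']; exact min_le_left _ _
  have hε'2 : ε' ≤ 1 / 2 := by rw [hε']; exact min_le_right _ _
  obtain ⟨X₀, hX₀⟩ := hmain (ε' / (k * N)) (by positivity) q a hq ha
  refine ⟨max X₀ 3, fun X hX H hH1 hH2 => ?_⟩
  have hX3 : 3 ≤ X := (le_max_right _ _).trans hX
  have hlog : 0 < Real.log X := Real.log_pos (by linarith)
  have hH : 0 < H := lt_of_lt_of_le hlog hH1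
  have hH' : H ≤ k * N * H := by nlinarith
  have h1 := hX₀ X ((le_max_left _ _).trans hX) (k * N * H) (hH1.trans hH') (by
      have h2 := mul_le_mul_of_nonneg_left hH2 hkN.le
      calc (k : ℝ) * N * H ≤ k * N * (c / (k * N) * ff X) := h2
        _ = c * ff X := by field_simp)
    (fun w => (∑ i, ((w i : ℕ) : ℝ)) / (k * N)) (fun w => by
      constructor
      · positivity
      · rw [div_le_one hkN]
        calc ∑ i, ((w i : ℕ) : ℝ) ≤ ∑ _i : Fin N, (k : ℝ) :=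
              sum_le_sum fun i _ => by exact_mod_cast (w i).2.le
          _ = k * N := by rw [sum_const, card_univ, Fintype.card_fin, nsmul_eq_mul, mul_comm])
  refine h1.trans ?_
  have hsub : Cfg k N R q a (ε' / (k * N)) X (k * N * H) (fun w => (∑ i, ((w i : ℕ) : ℝ)) / (k * N)) ⊆
      Ap k N R q a ε X H := by
    rintro n ⟨r, g1, g2, g3, g4, g5, u, ⟨i₀, hi₀⟩, m, hm1, hm2, hm3⟩
    set s : ℕ := (univ.filter (fun i => u i = none)).card with hs
    have hs1 : 1 ≤ s := card_pos.2 ⟨i₀, by simp [hi₀]⟩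
    have hsN : s ≤ N := by
      refine (card_le_univ _).trans ?_
      rw [Fintype.card_fin]
    have hsum : ∀ j : Fin k, ∑ i, (((pt u j i : Fin k) : ℕ) : ℝ) =
        ∑ i, (((u i).elim 0 (fun b => (b : ℕ)) : ℕ) : ℝ) + s * (j : ℝ) := by
      intro j
      have h3 : ∀ i, (((pt u j i : Fin k) : ℕ) : ℝ) = (((u i).elim 0 (fun b => (b : ℕ)) : ℕ) : ℝ) +
          (if u i = none then (j : ℝ) else 0) := by
        intro i
        cases hui : u i <;> simp [pt, hui]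
      rw [sum_congr rfl fun i _ => h3 i, sum_add_distrib, ← sum_filter, sum_const, nsmul_eq_mul]
    have hdist : ∀ i j : Fin k, |(Nat.nth Nat.Prime (n + m j) : ℝ) - Nat.nth Nat.Prime (n + m i) -
        s * H * ((j : ℝ) - (i : ℝ))| ≤ ε' * H := by
      intro i j
      have h4 := hm3 j i
      beta_reduce at h4
      rw [hsum, hsum] at h4
      set P := (Nat.nth Nat.Prime (n + m j) : ℝ) - Nat.nth Nat.Prime (n + m i) with hP
      set S0 := ∑ i, (((u i).elim 0 (fun b => (b : ℕ)) : ℕ) : ℝ) with hS0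
      have e : P / (k * N * H) - ((S0 + s * (j : ℝ)) / (k * N) - (S0 + s * (i : ℝ)) / (k * N)) =
          (P - s * H * ((j : ℝ) - (i : ℝ))) / (k * N * H) := by
        field_simp
        ring
      rw [e, abs_div, abs_of_pos (by positivity : (0 : ℝ) < k * N * H),
        div_le_div_iff₀ (by positivity) hkN] at h4
      have h5 : |P - s * H * ((j : ℝ) - (i : ℝ))| * (k * N) ≤ ε' * H * (k * N) := by
        linarith
      exact le_of_mul_le_mul_right h5 hkN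
    refine ⟨r, g1, g2, g3, g4, fun p hp h2 h3 => ?_, s, hs1, hsN, m, ?_, hm2, fun i j =>
      (hdist i j).trans (mul_le_mul_of_nonneg_right hε'1 hH.le)⟩
    · exact g5 p hp (by linarith) (by linarith)
    · intro i j hij
      have hinf : (Set.ofPred Nat.Prime).Infinite := Nat.infinite_setOfPred_prime
      have h4 := (abs_le.1 (hdist i j)).1
      have h5 : (1 : ℝ) ≤ (j : ℝ) - (i : ℝ) := by
        have : ((i : ℕ) : ℝ) + 1 ≤ ((j : ℕ) : ℝ) := by exact_mod_cast hij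
        linarith
      have h6 : (1 : ℝ) ≤ s := by exact_mod_cast hs1
      have h7 : H * 1 ≤ s * H * ((j : ℝ) - (i : ℝ)) := by
        have h8 : 1 ≤ (s : ℝ) * ((j : ℝ) - (i : ℝ)) := by nlinarith
        calc H * 1 ≤ H * (s * ((j : ℝ) - (i : ℝ))) := mul_le_mul_of_nonneg_left h8 hH.le
          _ = _ := by ring
      have h9 : ε' * H ≤ 1 / 2 * H := mul_le_mul_of_nonneg_right hε'2 hH.le
      have h10 : (Nat.nth Nat.Prime (n + m i) : ℝ) < Nat.nth Nat.Prime (n + m j) := by linarith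
      have h11 : Nat.nth Nat.Prime (n + m i) < Nat.nth Nat.Prime (n + m j) := by exact_mod_cast h10
      have h12 := (Nat.nth_strictMono hinf).lt_iff_lt.1 h11
      omega
  exact_mod_cast Set.ncard_le_ncard hsub (ap_finite k N R q a ε X H)

end Pool.Agent.J6H17.NP
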